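import Pool.Agent.H11Cara.Defs
import Pool.Agent.H11Cara.Bound

/-!
MP_ea326e_an, Q1 (partial): `m_n(r) ≤ r + 3 r² / (1 - r)^(3/2)`.
-/

open Metric

namespace Pool.Agent.Results.MP_ea326e_an.Growth

open Pool.Agent.H11Cara

/-- The set of all `‖h(z)‖` with `h ∈ M` and `‖z‖ = r`. -/
def vals (n : ℕ) (r : ℝ) : Set ℝ :=
  {x | ∃ h ∈ Caratheodory n, ∃ z : EuclideanSpace ℂ (Fin n), ‖z‖ = r ∧ x = ‖h z‖}

/-- `m_n(r) = sup {‖h(z)‖ : h ∈ M, ‖z‖ = r}`. -/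
noncomputable def mn (n : ℕ) (r : ℝ) : ℝ := sSup (vals n r)

lemma aM_le (k : ℕ) : aM (k + 2) ≤ 3 * √((k : ℝ) + 1) := by
  have h0 : (0 : ℝ) < ((k + 2 : ℕ) : ℝ) := by positivity
  have h1 : aM (k + 2) ^ 2 ≤ 9 * ((k : ℝ) + 1) := by
    rw [aM_sq (by omega)]
    have h2 : (((k + 2 : ℕ) : ℝ) + 1) ^ (k + 2 + 1) / ((k + 2 : ℕ) : ℝ) ^ (k + 2)
        = (((k + 2 : ℕ) : ℝ) + 1) * (1 / ((k + 2 : ℕ) : ℝ) + 1) ^ (k + 2) := by
      rw [show (1 / ((k + 2 : ℕ) : ℝ) + 1) = (((k + 2 : ℕ) : ℝ) + 1) / ((k + 2 : ℕ) : ℝ) by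
        field_simp; ring, div_pow, pow_succ]
      field_simp
    rw [h2]
    have h3 : (1 / ((k + 2 : ℕ) : ℝ) + 1) ^ (k + 2) ≤ Real.exp 1 := by
      calc (1 / ((k + 2 : ℕ) : ℝ) + 1) ^ (k + 2) ≤ (Real.exp (1 / ((k + 2 : ℕ) : ℝ))) ^ (k + 2) := by
            apply pow_le_pow_left₀ (by positivity)
            exact Real.add_one_le_exp _
        _ = Real.exp 1 := by
            rw [← Real.exp_nat_mul]; congr 1; field_simp
    have h4 : Real.exp 1 ≤ 3 := by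
      have := Real.exp_one_lt_d9
      linarith
    have h5 : (((k + 2 : ℕ) : ℝ) + 1) ≤ 3 * ((k : ℝ) + 1) := by push_cast; nlinarith [(Nat.cast_nonneg k : (0:ℝ) ≤ k)]
    calc (((k + 2 : ℕ) : ℝ) + 1) * (1 / ((k + 2 : ℕ) : ℝ) + 1) ^ (k + 2)
        ≤ (3 * ((k : ℝ) + 1)) * 3 := by
          apply mul_le_mul h5 (h3.trans h4) (by positivity) (by positivity)
      _ = 9 * ((k : ℝ) + 1) := by ring
  have h6 : (3 * √((k : ℝ) + 1)) ^ 2 = 9 * ((k : ℝ) + 1) := by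
    rw [mul_pow, Real.sq_sqrt (by positivity)]; ring
  rw [← h6] at h1
  exact (pow_le_pow_iff_left₀ (aM_pos (by omega)).le (by positivity) (by norm_num)).1 h1

lemma sqrt_le (k : ℕ) {s : ℝ} (hs : 0 < s) : √((k : ℝ) + 1) ≤ (1 / s + s * ((k : ℝ) + 1)) / 2 := by
  have hk : (0 : ℝ) ≤ (k : ℝ) + 1 := by positivity
  have h1 := Real.sq_sqrt hk
  set q := √((k : ℝ) + 1) with hq
  rw [← h1]
  have h2 : 0 ≤ (s * q - 1) ^ 2 / s := by positivity
  have h3 : (s * q - 1) ^ 2 / s = s * q ^ 2 - 2 * q + 1 / s := by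
    field_simp
    ring
  rw [h3] at h2
  linarith

lemma hasSum_geo {r : ℝ} (hr0 : 0 ≤ r) (hr1 : r < 1) :
    HasSum (fun k : ℕ => 3 * r ^ 2 * (r ^ k * ((1 / √(1 - r) + √(1 - r) * ((k : ℝ) + 1)) / 2)))
      (3 * r ^ 2 / ((1 - r) * √(1 - r))) := by
  have hn : ‖r‖ < 1 := by rwa [Real.norm_of_nonneg hr0]
  have h1 := hasSum_geometric_of_lt_one hr0 hr1
  have h2 := hasSum_coe_mul_geometric_of_norm_lt_one hn
  have hs : 0 < √(1 - r) := Real.sqrt_pos.2 (by linarith)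
  have hs2 : √(1 - r) ^ 2 = 1 - r := Real.sq_sqrt (by linarith)
  have h3 := ((h1.mul_left ((1 / √(1 - r) + √(1 - r)) / 2)).add (h2.mul_left (√(1 - r) / 2))).mul_left (3 * r ^ 2)
  have hfun : (fun k : ℕ => 3 * r ^ 2 * (r ^ k * ((1 / √(1 - r) + √(1 - r) * ((k : ℝ) + 1)) / 2)))
      = fun i : ℕ => 3 * r ^ 2 * ((1 / √(1 - r) + √(1 - r)) / 2 * r ^ i + √(1 - r) / 2 * ((i : ℝ) * r ^ i)) := by
    funext k; ring
  have hgen : ∀ s : ℝ, 0 < s → s ^ 2 = 1 - r → 3 * r ^ 2 / ((1 - r) * s) =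
      3 * r ^ 2 * ((1 / s + s) / 2 * (1 - r)⁻¹ + s / 2 * (r / (1 - r) ^ 2)) := by
    intro s hs hs2
    rw [← hs2]
    have hr : r = 1 - s ^ 2 := by linarith
    rw [hr]
    field_simp
    ring
  have hval := hgen _ hs hs2
  rw [hfun, hval]
  exact h3

theorem growth {n : ℕ} {h : Map n} (hh : h ∈ Caratheodory n) {z : EuclideanSpace ℂ (Fin n)}
    (hz0 : z ≠ 0) (hz1 : ‖z‖ < 1) :
    ‖h z‖ ≤ ‖z‖ + 3 * ‖z‖ ^ 2 / ((1 - ‖z‖) * √(1 - ‖z‖)) := by
  obtain ⟨h1, h2, h3, h4⟩ := hh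
  set r := ‖z‖ with hr
  have hr0 : 0 < r := norm_pos_iff.2 hz0
  set e : EuclideanSpace ℂ (Fin n) := ((r : ℂ)⁻¹) • z with he
  have hen : ‖e‖ = 1 := by
    rw [he, norm_smul, norm_inv, Complex.norm_real, Real.norm_of_nonneg hr0.le, ← hr]
    field_simp
  have hze : (r : ℂ) • e = z := by
    rw [he, smul_smul, mul_inv_cancel₀ (by exact_mod_cast hr0.ne'), one_smul]
  set f : ℂ → EuclideanSpace ℂ (Fin n) := fun ζ => h (ζ • e) with hf
  have hfd : DifferentiableOn ℂ f (ball 0 1) := by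
    intro ζ hζ
    have hm : ζ • e ∈ ball (0 : EuclideanSpace ℂ (Fin n)) 1 := by
      rw [mem_ball_zero_iff, norm_smul, hen, mul_one]
      simpa using hζ
    have ha := (h1 _ hm).differentiableAt
    exact (ha.comp ζ (differentiableAt_id.smul_const e)).differentiableWithinAt
  have hrm : (r : ℂ) ∈ ball (0 : ℂ) 1 := by
    rw [mem_ball_zero_iff, Complex.norm_real, Real.norm_of_nonneg hr0.le]; exact hz1
  have hsum := Complex.hasSum_taylorSeries_on_ball hfd hrm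
  have hfr : f (r : ℂ) = h z := by rw [hf]; simp only; rw [hze]
  rw [hfr] at hsum
  have hline : ∀ m, iteratedDeriv m f 0 = iteratedFDeriv ℂ m h 0 (fun _ => e) := fun m =>
    iteratedDeriv_line (h1 0 (by simp)) e m
  have hup : ∀ m, 2 ≤ m → ‖((m.factorial : ℂ)⁻¹) • iteratedFDeriv ℂ m h 0 (fun _ => e)‖ ≤ aM m := by
    intro m hm
    apply upper h1 h2 h3.fderiv _ hm hen
    intro w hw
    by_cases hw0 : w = 0
    · rw [hw0, inner_zero_left]; simp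
    · exact (h4 w hw hw0).le
  have hg := hasSum_geo hr0.le hz1
  have hg1 : HasSum (fun m : ℕ => if m = 0 then 0 else if m = 1 then r else
      3 * r ^ 2 * (r ^ (m - 2) * ((1 / √(1 - r) + √(1 - r) * (((m - 2 : ℕ) : ℝ) + 1)) / 2)))
      (r + 3 * r ^ 2 / ((1 - r) * √(1 - r))) := by
    have h5 := (hasSum_nat_add_iff (f := fun m : ℕ => if m = 0 then 0 else if m = 1 then r else
      3 * r ^ 2 * (r ^ (m - 2) * ((1 / √(1 - r) + √(1 - r) * (((m - 2 : ℕ) : ℝ) + 1)) / 2))) 2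
      (g := 3 * r ^ 2 / ((1 - r) * √(1 - r)))).1 (by simpa using hg)
    have h6 : (3 * r ^ 2 / ((1 - r) * √(1 - r)) + ∑ i ∈ Finset.range 2, (if i = 0 then 0 else if i = 1 then r else
      3 * r ^ 2 * (r ^ (i - 2) * ((1 / √(1 - r) + √(1 - r) * (((i - 2 : ℕ) : ℝ) + 1)) / 2))))
        = r + 3 * r ^ 2 / ((1 - r) * √(1 - r)) := by
      rw [Finset.sum_range_succ, Finset.sum_range_one]
      simp only [if_true, one_ne_zero, if_false]
      ring
    rw [← h6]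
    exact h5
  rw [← hsum.tsum_eq]
  apply tsum_of_norm_bounded hg1
  intro m
  rw [hline m]
  by_cases hm0 : m = 0
  · subst hm0
    simp [h2]
  by_cases hm1 : m = 1
  · subst hm1
    simp only [one_ne_zero, if_false, if_true]
    rw [iteratedFDeriv_one_apply, h3.fderiv]
    simp [norm_smul, hen, abs_of_pos hr0]
  · obtain ⟨k, rfl⟩ : ∃ k, m = k + 2 := ⟨m - 2, by omega⟩
    simp only [hm0, hm1, if_false, Nat.add_sub_cancel]
    have h6 := hup (k + 2) (by omega)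
    rw [sub_zero, smul_comm, norm_smul, norm_pow, Complex.norm_real, Real.norm_of_nonneg hr0.le]
    have h7 : aM (k + 2) ≤ 3 * ((1 / √(1 - r) + √(1 - r) * ((k : ℝ) + 1)) / 2) :=
      (aM_le k).trans (by
        have := sqrt_le k (Real.sqrt_pos.2 (by linarith : 0 < 1 - r))
        linarith)
    calc r ^ (k + 2) * ‖(((k + 2).factorial : ℂ)⁻¹) • iteratedFDeriv ℂ (k + 2) h 0 (fun _ => e)‖
        ≤ r ^ (k + 2) * (3 * ((1 / √(1 - r) + √(1 - r) * ((k : ℝ) + 1)) / 2)) := by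
          apply mul_le_mul_of_nonneg_left (h6.trans h7) (by positivity)
      _ = _ := by ring

theorem result : ∀ n : ℕ, 2 ≤ n → ∀ r : ℝ, 0 < r → r < 1 →
    (vals n r).Nonempty ∧ BddAbove (vals n r) ∧
      mn n r ≤ r + 3 * r ^ 2 / ((1 - r) * √(1 - r)) := by
  intro n hn r hr0 hr1
  have hb : ∀ x ∈ vals n r, x ≤ r + 3 * r ^ 2 / ((1 - r) * √(1 - r)) := by
    rintro x ⟨h, hh, z, hz, rfl⟩
    have hz0 : z ≠ 0 := by
      intro h0; rw [h0, norm_zero] at hz; linarith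
    have := growth hh hz0 (by rw [hz]; exact hr1)
    rwa [hz] at this
  have hne : (vals n r).Nonempty := by
    refine ⟨_, id, ⟨analyticOnNhd_id, rfl, hasFDerivAt_id _, ?_⟩,
      EuclideanSpace.single (⟨0, by omega⟩ : Fin n) (r : ℂ), ?_, rfl⟩
    · intro z _ hz0
      simp only [id]
      rw [inner_self_eq_norm_sq_to_K]
      have : 0 < ‖z‖ := norm_pos_iff.2 hz0
      have h2 : (((‖z‖ : ℝ) : ℂ) ^ 2).re = ‖z‖ ^ 2 := by
        rw [← Complex.ofReal_pow, Complex.ofReal_re]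
      exact h2 ▸ (by positivity)
    · simp [abs_of_pos hr0]
  exact ⟨hne, ⟨_, hb⟩, csSup_le hne hb⟩

end Pool.Agent.Results.MP_ea326e_an.Growth
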