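import Pool.Agent.H7Cara.Defs
import Pool.Agent.H7Cara.Main

/-!
MP_ea326e_an, Q1 (partial): `r² / (1 - r²)^(3/2) ≤ m_n(r) ≤ r + 3 r² / (1 - r)^(3/2)`.
-/

open Pool.Agent.H7Cara in
theorem Pool.Agent.Results.MP_ea326e_an.Order.result :
    ∀ n : ℕ, 2 ≤ n → ∀ r : ℝ, 0 < r → r < 1 →
      (vals n r).Nonempty ∧ BddAbove (vals n r) ∧
      r ^ 2 / ((1 - r ^ 2) * √(1 - r ^ 2)) ≤ mn n r ∧
      mn n r ≤ r + 3 * r ^ 2 / ((1 - r) * √(1 - r)) :=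
  fun n hn r hr0 hr1 => Pool.Agent.H7Cara.Main.main n hn r hr0 hr1
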